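import Pool.Agent.Lib.MP_182bbb_co.TT.Iface

/-!
# MP_182bbb_co, module OMEGA: many starts (`k ≥ 1`)
-/

open Finset

namespace MP_182bbb_co.TT.H17

open MP_182bbb_co.H5

section Lk

variable {V : Type} [Fintype V] [DecidableEq V]

lemma mem_lk' {G : Finset (Finset V)} {x y z : V} :
    z ∈ lk G x y ↔ ({x, y, z} : Finset V) ∈ G := by simp [lk]

lemma lk_comm' (G : Finset (Finset V)) (x y : V) : lk G x y = lk G y x := by
  ext z; rw [mem_lk', mem_lk', swap12]

lemma left_not_mem_lk {G : Finset (Finset V)} (hG : IsUniform 3 G) (x y : V) : x ∉ lk G x y := by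
  rw [mem_lk']
  intro h
  have h1 := hG _ h
  have h2 : ({x, y, x} : Finset V) = {x, y} := by ext w; simp; tauto
  rw [h2] at h1
  have := Finset.card_le_two (a := x) (b := y)
  omega

lemma right_not_mem_lk {G : Finset (Finset V)} (hG : IsUniform 3 G) (x y : V) :
    y ∉ lk G x y := by
  rw [lk_comm']; exact left_not_mem_lk hG y x

end Lk

section Cnt

variable {V : Type} [Fintype V]

open Classical in
lemma cnt2_eq (P : V → V → Prop) : cnt2 P = ∑ x, ∑ y, if P x y then 1 else 0 := by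
  unfold cnt2
  rw [card_filter, Fintype.sum_prod_type]

open Classical in
lemma cnt3_eq (P : V → V → V → Prop) :
    cnt3 P = ∑ x, ∑ y, ∑ w, if P x y w then 1 else 0 := by
  unfold cnt3
  rw [card_filter, Fintype.sum_prod_type]
  refine sum_congr rfl (fun x _ => ?_)
  rw [Fintype.sum_prod_type]

open Classical in
lemma cnt2_mono {P Q : V → V → Prop} (h : ∀ x y, P x y → Q x y) : cnt2 P ≤ cnt2 Q := by
  unfold cnt2
  refine card_le_card ?_
  intro p hp
  rw [mem_filter] at hp ⊢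
  exact ⟨hp.1, h _ _ hp.2⟩

lemma cnt2_or (P Q : V → V → Prop) : cnt2 (fun x y => P x y ∨ Q x y) ≤ cnt2 P + cnt2 Q := by
  classical
  rw [cnt2_eq, cnt2_eq, cnt2_eq, ← sum_add_distrib]
  refine sum_le_sum (fun x _ => ?_)
  rw [← sum_add_distrib]
  refine sum_le_sum (fun y _ => ?_)
  by_cases h1 : P x y <;> by_cases h2 : Q x y <;> simp [h1, h2]

open Classical in
lemma cnt2_swap (P : V → V → Prop) : cnt2 (fun x y => P y x) = cnt2 P := by
  rw [cnt2_eq, cnt2_eq, sum_comm]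

open Classical in
/-- number of middle extensions -/
noncomputable def x1 (Tr : V → V → V → Prop) (x y : V) : ℕ :=
  ((univ : Finset V).filter (fun u => Tr x u y)).card

open Classical in
/-- number of first extensions -/
noncomputable def x2 (Tr : V → V → V → Prop) (x y : V) : ℕ :=
  ((univ : Finset V).filter (fun u => Tr u x y)).card

open Classical in
lemma pop1 (Tr : V → V → V → Prop) (Q : V → V → Prop) (r : ℝ) :
    (cnt2 (fun x y => r ≤ x1 Tr x y ∧ Q x y) : ℝ) * r ≤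
      cnt3 (fun x x' y => Tr x x' y ∧ Q x y) := by
  rw [cnt2_eq, cnt3_eq]
  push_cast
  rw [sum_mul]
  refine sum_le_sum (fun x _ => ?_)
  rw [sum_mul, sum_comm]
  refine sum_le_sum (fun y _ => ?_)
  by_cases h : r ≤ x1 Tr x y ∧ Q x y
  · rw [if_pos h, one_mul]
    refine le_trans h.1 ?_
    unfold x1
    rw [card_filter]
    push_cast
    refine sum_le_sum (fun u _ => ?_)
    by_cases h' : Tr x u y
    · rw [if_pos h', if_pos ⟨h', h.2⟩]
    · rw [if_neg h']; split_ifs <;> norm_num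
  · rw [if_neg h, zero_mul]
    refine sum_nonneg (fun u _ => ?_)
    split_ifs <;> norm_num

open Classical in
lemma pop2 (Tr : V → V → V → Prop) (Q : V → V → Prop) (r : ℝ) :
    (cnt2 (fun x y => r ≤ x2 Tr x y ∧ Q x y) : ℝ) * r ≤
      cnt3 (fun x x' y => Tr x x' y ∧ Q x' y) := by
  rw [cnt2_eq, cnt3_eq]
  push_cast
  rw [sum_mul, sum_comm]
  refine sum_le_sum (fun x _ => ?_)
  rw [sum_mul, sum_comm]
  refine sum_le_sum (fun y _ => ?_)
  by_cases h : r ≤ x2 Tr x y ∧ Q x y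
  · rw [if_pos h, one_mul]
    refine le_trans h.1 ?_
    unfold x2
    rw [card_filter]
    push_cast
    refine sum_le_sum (fun u _ => ?_)
    by_cases h' : Tr u x y
    · rw [if_pos h', if_pos ⟨h', h.2⟩]
    · rw [if_neg h']; split_ifs <;> norm_num
  · rw [if_neg h, zero_mul]
    refine sum_nonneg (fun u _ => ?_)
    split_ifs <;> norm_num

/-- popular pair, in any orientation -/
def Pop (Tr : V → V → V → Prop) (r : ℝ) (x y : V) : Prop :=
  r ≤ x1 Tr x y ∨ r ≤ x2 Tr x y ∨ r ≤ x1 Tr y x ∨ r ≤ x2 Tr y x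

end Cnt

section Pop

variable {V : Type} [Fintype V] [DecidableEq V]

lemma pop_count (A : Finset (Finset V)) (Tr : V → V → V → Prop) (ρ δ' : ℝ) (hρ : 0 < ρ)
    (hn : 0 < Fintype.card V) (Z' : Finset V)
    (h1 : (cnt3 (fun x x' y => Tr x x' y ∧ Z' ⊆ lk A x y) : ℝ) ≤ δ' * (Fintype.card V : ℝ) ^ 3)
    (h2 : (cnt3 (fun x x' y => Tr x x' y ∧ Z' ⊆ lk A x' y) : ℝ) ≤
      δ' * (Fintype.card V : ℝ) ^ 3) :
    (cnt2 (fun x y => Pop Tr (ρ * Fintype.card V) x y ∧ Z' ⊆ lk A x y) : ℝ) ≤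
      (4 * δ' / ρ) * (Fintype.card V : ℝ) ^ 2 := by
  set n : ℝ := (Fintype.card V : ℝ) with hnn
  have hn' : 0 < n := by rw [hnn]; exact_mod_cast hn
  have hr : 0 < ρ * n := by positivity
  have e1 := pop1 Tr (fun x y => Z' ⊆ lk A x y) (ρ * n)
  have e2 := pop2 Tr (fun x y => Z' ⊆ lk A x y) (ρ * n)
  have e3 : (cnt2 (fun x y => ρ * n ≤ x1 Tr y x ∧ Z' ⊆ lk A x y) : ℝ) =
      cnt2 (fun x y => ρ * n ≤ x1 Tr x y ∧ Z' ⊆ lk A x y) := by
    rw [← cnt2_swap]
    simp only [lk_comm' A]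
  have e4 : (cnt2 (fun x y => ρ * n ≤ x2 Tr y x ∧ Z' ⊆ lk A x y) : ℝ) =
      cnt2 (fun x y => ρ * n ≤ x2 Tr x y ∧ Z' ⊆ lk A x y) := by
    rw [← cnt2_swap]
    simp only [lk_comm' A]
  have f1 : (cnt2 (fun x y => ρ * n ≤ x1 Tr x y ∧ Z' ⊆ lk A x y) : ℝ) ≤ δ' / ρ * n ^ 2 := by
    have : (cnt2 (fun x y => ρ * n ≤ x1 Tr x y ∧ Z' ⊆ lk A x y) : ℝ) * (ρ * n) ≤
        δ' * n ^ 3 := le_trans e1 h1
    rw [← le_div_iff₀ hr] at this
    refine le_trans this (le_of_eq ?_)
    field_simp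
  have f2 : (cnt2 (fun x y => ρ * n ≤ x2 Tr x y ∧ Z' ⊆ lk A x y) : ℝ) ≤ δ' / ρ * n ^ 2 := by
    have : (cnt2 (fun x y => ρ * n ≤ x2 Tr x y ∧ Z' ⊆ lk A x y) : ℝ) * (ρ * n) ≤
        δ' * n ^ 3 := le_trans e2 h2
    rw [← le_div_iff₀ hr] at this
    refine le_trans this (le_of_eq ?_)
    field_simp
  have g : cnt2 (fun x y => Pop Tr (ρ * n) x y ∧ Z' ⊆ lk A x y) ≤
      cnt2 (fun x y => ρ * n ≤ x1 Tr x y ∧ Z' ⊆ lk A x y) +
      (cnt2 (fun x y => ρ * n ≤ x2 Tr x y ∧ Z' ⊆ lk A x y) +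
      (cnt2 (fun x y => ρ * n ≤ x1 Tr y x ∧ Z' ⊆ lk A x y) +
      cnt2 (fun x y => ρ * n ≤ x2 Tr y x ∧ Z' ⊆ lk A x y))) := by
    refine le_trans (cnt2_mono (Q := fun x y => (ρ * n ≤ x1 Tr x y ∧ Z' ⊆ lk A x y) ∨
      ((ρ * n ≤ x2 Tr x y ∧ Z' ⊆ lk A x y) ∨ ((ρ * n ≤ x1 Tr y x ∧ Z' ⊆ lk A x y) ∨
      (ρ * n ≤ x2 Tr y x ∧ Z' ⊆ lk A x y)))) ?_) ?_
    · intro x y h
      unfold Pop at h
      tauto
    · refine le_trans (cnt2_or _ _) (Nat.add_le_add_left ?_ _)
      refine le_trans (cnt2_or _ _) (Nat.add_le_add_left ?_ _)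
      exact cnt2_or _ _
  have g' : (cnt2 (fun x y => Pop Tr (ρ * n) x y ∧ Z' ⊆ lk A x y) : ℝ) ≤
      cnt2 (fun x y => ρ * n ≤ x1 Tr x y ∧ Z' ⊆ lk A x y) +
      (cnt2 (fun x y => ρ * n ≤ x2 Tr x y ∧ Z' ⊆ lk A x y) +
      (cnt2 (fun x y => ρ * n ≤ x1 Tr y x ∧ Z' ⊆ lk A x y) +
      cnt2 (fun x y => ρ * n ≤ x2 Tr y x ∧ Z' ⊆ lk A x y))) := by exact_mod_cast g
  rw [e3, e4] at g'
  refine le_trans g' ?_
  have : (4 * δ' / ρ) * n ^ 2 = δ' / ρ * n ^ 2 + (δ' / ρ * n ^ 2 + (δ' / ρ * n ^ 2 +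
      δ' / ρ * n ^ 2)) := by ring
  rw [this]
  linarith

end Pop

lemma ub {ι : Type*} {Ω : Type*} [DecidableEq Ω] (s : Finset ι) (S : ι → Finset Ω) (n q M : ℕ)
    (h : ∀ i ∈ s, (S i).card * n ≤ q * M) : (s.biUnion S).card * n ≤ s.card * q * M := by
  calc (s.biUnion S).card * n ≤ (∑ i ∈ s, (S i).card) * n :=
        Nat.mul_le_mul_right _ card_biUnion_le
    _ = ∑ i ∈ s, (S i).card * n := by rw [sum_mul]
    _ ≤ ∑ i ∈ s, q * M := sum_le_sum h
    _ = _ := by rw [sum_const, smul_eq_mul, mul_assoc]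

/-- Distinct representatives of a few large sets. -/
lemma sdr {V : Type} [DecidableEq V] [Nonempty V] (F : Finset ℕ) (L : ℕ → Finset V)
    (h : ∀ e ∈ F, F.card ≤ (L e).card) :
    ∃ ρ : ℕ → V, (∀ e ∈ F, ρ e ∈ L e) ∧ ∀ e ∈ F, ∀ e' ∈ F, ρ e = ρ e' → e = e' := by
  classical
  have h1 : ∀ s : Finset {e // e ∈ F}, s.card ≤ (s.biUnion (fun e => L e.1)).card := by
    intro s
    rcases s.eq_empty_or_nonempty with rfl | ⟨e, he⟩
    · simp
    · have h2 : s.card ≤ F.card := by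
        have := Finset.card_le_univ s
        simpa using this
      refine le_trans h2 (le_trans (h e.1 e.2) (card_le_card ?_))
      intro x hx
      rw [mem_biUnion]
      exact ⟨e, he, hx⟩
  obtain ⟨f, hf, hf'⟩ := (Finset.all_card_le_biUnion_card_iff_exists_injective
    (fun e : {e // e ∈ F} => L e.1)).1 h1
  refine ⟨fun e => if he : e ∈ F then f ⟨e, he⟩ else Classical.arbitrary V, ?_, ?_⟩
  · intro e he
    simp only [he, dif_pos]
    exact hf' ⟨e, he⟩
  · intro e he e' he' hh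
    simp only [he, he', dif_pos] at hh
    have := hf hh
    simpa using this

section Main

variable {V : Type} [Fintype V] [DecidableEq V]

/-- lifting of `ω` to all vertex numbers -/
def om (N : ℕ) (z : ℕ → V) (ω : Fin (N + 2) → V) (v : ℕ) : V :=
  if h : v < N + 2 then ω ⟨v, h⟩ else z v

/-- the kept triples -/
def Kp (A B : Finset (Finset V)) (Tr : V → V → V → Prop) (Z : Finset V) (d0 : ℕ) (ρ η : ℝ)
    (x x' y : V) : Prop :=
  (Tr x x' y ∧ (lk A x y).card ≤ d0 ∧ (lk A x' y).card ≤ d0 ∧ (lk B x x').card ≤ d0 ∧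
    Z ⊆ lk A x y) ∧
  ρ * (Fintype.card V : ℝ) ≤ x1 Tr x y ∧ ρ * (Fintype.card V : ℝ) ≤ x2 Tr x' y ∧
  (∀ z ∈ Z, η * (Fintype.card V : ℝ) ≤ (lk A z x).card) ∧
  (∀ z ∈ Z, η * (Fintype.card V : ℝ) ≤ (lk A z y).card)

/-- all rainbow triples of vertices of `T_0` are mapped to kept triples -/
def Blw (b : ℕ → ℕ) (in0 : ℕ → Prop) (c : ℕ) (T : V → V → V → Prop) (φ : ℕ → V) : Prop :=
  ∀ u v w : ℕ, S0 in0 u → S0 in0 v → S0 in0 w → col b u = 1 - c → col b v = c → col b w = 2 →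
    T (φ u) (φ v) (φ w)

omit [Fintype V] [DecidableEq V] in
lemma ini_eq_z {N : ℕ} {J : Finset ℕ} {z : ℕ → V} {ω : Fin (N + 2) → V} {v : ℕ} (h : v ∈ J) :
    ini N J z ω v = z v := by simp [ini, h]

omit [Fintype V] [DecidableEq V] in
lemma ini_eq_om {N : ℕ} {J : Finset ℕ} {z : ℕ → V} {ω : Fin (N + 2) → V} {v : ℕ} (h : v ∉ J) :
    ini N J z ω v = om N z ω v := by simp [ini, om, h]

/-- What holds for an edge of `T_0` not hitting `J`. -/
lemma edge_props {N k : ℕ} {b : ℕ → ℕ} {c : ℕ} {J : Finset ℕ} (hc : c ≤ 1)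
    (hcol : ∀ v, col b v ≤ 2) (hne : ∀ e, col b (ends b e).1 ≠ col b (ends b e).2)
    (h0 : S0 (inT N k b) 0) (h1 : S0 (inT N k b) 1) (h2 : S0 (inT N k b) 2)
    (hS : ∀ e, E0 (inT N k b) e → S0 (inT N k b) (ends b e).1 ∧ S0 (inT N k b) (ends b e).2)
    (hX : ∀ e, E0 (inT N k b) e → ¬ hitJ b J e →
      (XT k b J e ↔ col b (ends b e).1 ≠ 2 ∧ col b (ends b e).2 ≠ 2))
    {A B : Finset (Finset V)} {Tr : V → V → V → Prop} {Z : Finset V} {d0 : ℕ} {ρ η : ℝ}
    (hTr : ∀ x x' y, Tr x x' y → (lk A x y).Nonempty ∧ (lk A x' y).Nonempty ∧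
      (lk B x x').Nonempty)
    {φ : ℕ → V} (hφ : Blw b (inT N k b) c (Kp A B Tr Z d0 ρ η) φ)
    (c0 : col b 0 = 0) (c1 : col b 1 = 1) (c2 : col b 2 = 2)
    {e : ℕ} (he : E0 (inT N k b) e) (hj : ¬ hitJ b J e) :
    (XT k b J e → (lk B (φ (ends b e).1) (φ (ends b e).2)).Nonempty ∧
      (lk B (φ (ends b e).1) (φ (ends b e).2)).card ≤ d0) ∧
    (¬ XT k b J e → (lk A (φ (ends b e).1) (φ (ends b e).2)).Nonempty ∧
      (lk A (φ (ends b e).1) (φ (ends b e).2)).card ≤ d0 ∧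
      Pop Tr (ρ * (Fintype.card V : ℝ)) (φ (ends b e).1) (φ (ends b e).2)) := by
  -- vertices of each colour
  have ex : ∃ u v w, S0 (inT N k b) u ∧ S0 (inT N k b) v ∧ S0 (inT N k b) w ∧
      col b u = 1 - c ∧ col b v = c ∧ col b w = 2 := by
    rcases (by omega : c = 0 ∨ c = 1) with rfl | rfl
    · exact ⟨1, 0, 2, h1, h0, h2, c1, c0, c2⟩
    · exact ⟨0, 1, 2, h0, h1, h2, c0, c1, c2⟩
  obtain ⟨u, v, w, hu, hv, hw, cu, cv, cw⟩ := ex
  obtain ⟨s1, s2⟩ := hS e he
  have k1 := hcol (ends b e).1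
  have k2 := hcol (ends b e).2
  have k3 := hne e
  have hXe := hX e he hj
  set p := (ends b e).1
  set q := (ends b e).2
  constructor
  · intro hx
    obtain ⟨n1, n2⟩ := hXe.1 hx
    have : (col b p = 1 - c ∧ col b q = c) ∨ (col b p = c ∧ col b q = 1 - c) := by omega
    rcases this with ⟨a1, a2⟩ | ⟨a1, a2⟩
    · obtain ⟨⟨t, l1, l2, l3, -⟩, -⟩ := hφ p q w s1 s2 hw a1 a2 cw
      exact ⟨(hTr _ _ _ t).2.2, l3⟩
    · obtain ⟨⟨t, l1, l2, l3, -⟩, -⟩ := hφ q p w s2 s1 hw a2 a1 cw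
      rw [lk_comm']
      exact ⟨(hTr _ _ _ t).2.2, l3⟩
  · intro hx
    rw [hXe] at hx
    have : (col b p = 2 ∧ col b q = 1 - c) ∨ (col b p = 2 ∧ col b q = c) ∨
        (col b q = 2 ∧ col b p = 1 - c) ∨ (col b q = 2 ∧ col b p = c) := by omega
    rcases this with ⟨a1, a2⟩ | ⟨a1, a2⟩ | ⟨a1, a2⟩ | ⟨a1, a2⟩
    · obtain ⟨⟨t, l1, l2, l3, -⟩, r1, r2, -⟩ := hφ q v p s2 hv s1 a2 cv a1
      rw [lk_comm']
      exact ⟨(hTr _ _ _ t).1, l1, Or.inr (Or.inr (Or.inl r1))⟩
    · obtain ⟨⟨t, l1, l2, l3, -⟩, r1, r2, -⟩ := hφ u q p hu s2 s1 cu a2 a1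
      rw [lk_comm']
      exact ⟨(hTr _ _ _ t).2.1, l2, Or.inr (Or.inr (Or.inr r2))⟩
    · obtain ⟨⟨t, l1, l2, l3, -⟩, r1, r2, -⟩ := hφ p v q s1 hv s2 a2 cv a1
      exact ⟨(hTr _ _ _ t).1, l1, Or.inl r1⟩
    · obtain ⟨⟨t, l1, l2, l3, -⟩, r1, r2, -⟩ := hφ u p q hu s1 s2 cu a2 a1
      exact ⟨(hTr _ _ _ t).2.1, l2, Or.inr (Or.inl r2)⟩

/-- The condition that no accident happens. -/
def Acc (N k : ℕ) (b : ℕ → ℕ) (J : Finset ℕ) (A B : Finset (Finset V)) (φ : ℕ → V) : Prop :=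
  ∀ e, E0 (inT N k b) e → ¬ hitJ b J e → ∀ v, S0 (inT N k b) v → v ∉ J → ¬ isEnd b e v →
    φ v ∉ Ls A B (XT k b J) b φ e

/-- The condition on pairs. -/
def Prs (N k : ℕ) (b : ℕ → ℕ) (c : ℕ) (J : Finset ℕ) (A B : Finset (Finset V)) (φ : ℕ → V) :
    Prop :=
  J ≠ VC k b c → ∀ e e', E0 (inT N k b) e → E0 (inT N k b) e' → ¬ hitJ b J e →
    ¬ hitJ b J e' → ¬ XT k b J e → ¬ isEnd b e (ends b e').1 → ¬ isEnd b e (ends b e').2 →
    (Ls A B (XT k b J) b φ e ∩ Ls A B (XT k b J) b φ e').card ≤ J.card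

omit [Fintype V] [DecidableEq V] in
lemma S0_ends {b : ℕ → ℕ} {in0 : ℕ → Prop} (down : ∀ i, in0 i → E0 in0 (bs b i)) :
    ∀ e, E0 in0 e → S0 in0 (ends b e).1 ∧ S0 in0 (ends b e).2 := by
  intro e
  induction e using Nat.strong_induction_on with
  | _ e ih =>
    intro he
    rcases he with rfl | ⟨i, hi, rfl | rfl⟩
    · rw [ends_zero]
      exact ⟨Or.inl (by norm_num), Or.inl (by norm_num)⟩
    · rw [ends_odd]
      have := ih (bs b i) (by have := bs_le b i; omega) (down i hi)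
      exact ⟨Or.inr ⟨i, hi, rfl⟩, this.1⟩
    · rw [ends_even]
      have := ih (bs b i) (by have := bs_le b i; omega) (down i hi)
      exact ⟨Or.inr ⟨i, hi, rfl⟩, this.2⟩

/-- The combinatorial facts which are used for one `ω`. -/
structure Facts (N k : ℕ) (b : ℕ → ℕ) (c : ℕ) (J : Finset ℕ) : Prop where
  hc : c ≤ 1
  hk : k ≤ N
  hcol : ∀ v, col b v ≤ 2
  hne : ∀ e, col b (ends b e).1 ≠ col b (ends b e).2
  c0 : col b 0 = 0
  c1 : col b 1 = 1
  c2 : col b 2 = 2
  h2 : S0 (inT N k b) 2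
  hS : ∀ e, E0 (inT N k b) e → S0 (inT N k b) (ends b e).1 ∧ S0 (inT N k b) (ends b e).2
  hX : ∀ e, E0 (inT N k b) e → ¬ hitJ b J e →
      (XT k b J e ↔ col b (ends b e).1 ≠ 2 ∧ col b (ends b e).2 ≠ 2)
  tree : Tree0 N b (inT N k b) J (XT k b J)
  kk : k ≤ k0 N (inT N k b)
  cX : ∀ F : Finset ℕ, (∀ e ∈ F, e ≤ 2 * N ∧ XT k b J e) → F.card + J.card ≤ k
  hJ : J ⊆ VC k b c

lemma start_of {N k : ℕ} {b : ℕ → ℕ} {c : ℕ} {J : Finset ℕ} (hf : Facts N k b c J)
    {A B : Finset (Finset V)} {Tr : V → V → V → Prop} {d0 : ℕ} {ρ η : ℝ} (hη : 0 < η)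
    (hn : 0 < Fintype.card V) (hB : IsUniform 3 B) (hcB : IsCore k B)
    (hTr : ∀ x x' y, Tr x x' y → (lk A x y).Nonempty ∧ (lk A x' y).Nonempty ∧
      (lk B x x').Nonempty)
    (z : ℕ → V) (hz : Set.InjOn z (J : Set ℕ)) (ω : Fin (N + 2) → V)
    (hinj : Function.Injective ω) (hmiss : ∀ v, ω v ∉ J.image z)
    (hb : Blw b (inT N k b) c (Kp A B Tr (J.image z) d0 ρ η) (om N z ω))
    (hacc : Acc N k b J A B (ini N J z ω)) (hprs : Prs N k b c J A B (ini N J z ω)) :
    ∃ (R : Finset V) (r : ℕ → V),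
      Start N b (inT N k b) J (XT k b J) A B (1 / η) d0 (ini N J z ω) R ∧
      Pairs N k b c J A B (ini N J z ω) R r := by
  classical
  obtain ⟨hc, hk, hcol, hne, c0, c1, c2, h2, hS, hX, tree, kk, cX, hJ⟩ := hf
  have hnr : (0 : ℝ) < (Fintype.card V : ℝ) := by exact_mod_cast hn
  have : Nonempty V := Fintype.card_pos_iff.1 hn
  have h0 : S0 (inT N k b) 0 := Or.inl (by norm_num)
  have h1 : S0 (inT N k b) 1 := Or.inl (by norm_num)
  have ep := fun e he hj => edge_props (V := V) hc hcol hne h0 h1 h2 hS hX hTr hb c0 c1 c2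
    (e := e) he hj
  set φ := ini N J z ω with hφ
  have e1 : ∀ e, ¬ hitJ b J e → φ (ends b e).1 = om N z ω (ends b e).1 := by
    intro e he
    exact ini_eq_om (fun h => he (Or.inl h))
  have e2 : ∀ e, ¬ hitJ b J e → φ (ends b e).2 = om N z ω (ends b e).2 := by
    intro e he
    exact ini_eq_om (fun h => he (Or.inr h))
  have hX0 : ∀ e, XT k b J e → E0 (inT N k b) e ∧ ¬ hitJ b J e := tree.xe
  -- the lists
  have lX : ∀ e, XT k b J e → Ls A B (XT k b J) b φ e =
      lk B (φ (ends b e).1) (φ (ends b e).2) := fun e he => by simp [Ls, he]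
  have lA : ∀ e, ¬ XT k b J e → Ls A B (XT k b J) b φ e =
      lk A (φ (ends b e).1) (φ (ends b e).2) := fun e he => by simp [Ls, he]
  have xbig : ∀ e, XT k b J e → k ≤ (Ls A B (XT k b J) b φ e).card := by
    intro e he
    obtain ⟨q1, q2⟩ := hX0 e he
    rw [lX e he, e1 e q2, e2 e q2]
    exact hcB _ _ ((ep e q1 q2).1 he).1
  set F := (range (2 * N + 1)).filter (fun e => XT k b J e) with hF
  have hFm : ∀ e, e ∈ F ↔ XT k b J e := by
    intro e
    rw [hF, mem_filter, mem_range]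
    exact ⟨fun h => h.2, fun h => ⟨by have := h.1; omega, h⟩⟩
  have hFc : F.card + J.card ≤ k := cX F (fun e he => by
    rw [hF, mem_filter, mem_range] at he
    exact ⟨by omega, he.2⟩)
  have hZc : (J.image z).card ≤ J.card := card_image_le
  obtain ⟨r, hr, hri⟩ := sdr F (fun e => Ls A B (XT k b J) b φ e \ J.image z) (by
    intro e he
    have g1 := xbig e ((hFm e).1 he)
    have g2 := le_card_sdiff (J.image z) (Ls A B (XT k b J) b φ e)
    omega)
  have hSlt : ∀ v, S0 (inT N k b) v → v < N + 2 := by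
    intro v hv
    rcases hv with hv | ⟨i, hi, rfl⟩
    · omega
    · have := tree.inN i hi; omega
  have iz : ∀ v ∈ J, φ v = z v := fun v hv => ini_eq_z hv
  have io : ∀ v, v ∉ J → S0 (inT N k b) v → ∃ h : v < N + 2, φ v = ω ⟨v, h⟩ := by
    intro v hv hs
    refine ⟨hSlt v hs, ?_⟩
    rw [hφ, ini_eq_om hv, om, dif_pos (hSlt v hs)]
  have heavy : ∀ e, E0 (inT N k b) e → hitJ b J e →
      (Fintype.card V : ℝ) ≤ 1 / η * ((lk A (φ (ends b e).1) (φ (ends b e).2)).card : ℝ) := by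
    intro e he hj
    -- a vertex of colour `≠ c` of `T_0` and an element of `Z`
    have key : ∀ v u, v ∈ J → u ∉ J → S0 (inT N k b) u → col b u ≠ c →
        η * (Fintype.card V : ℝ) ≤ (lk A (φ v) (φ u)).card := by
      intro v u hv hu su cu
      have ex : ∃ u v w, S0 (inT N k b) u ∧ S0 (inT N k b) v ∧ S0 (inT N k b) w ∧
          col b u = 1 - c ∧ col b v = c ∧ col b w = 2 := by
        rcases (by omega : c = 0 ∨ c = 1) with rfl | rfl
        · exact ⟨1, 0, 2, h1, h0, h2, c1, c0, c2⟩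
        · exact ⟨0, 1, 2, h0, h1, h2, c0, c1, c2⟩
      obtain ⟨u', v', w', hu', hv', hw', cu', cv', cw'⟩ := ex
      have hzv : φ v ∈ J.image z := by rw [iz v hv]; exact mem_image_of_mem z hv
      have hou : φ u = om N z ω u := ini_eq_om hu
      have := hcol u
      rcases (by omega : col b u = 1 - c ∨ col b u = 2) with a | a
      · obtain ⟨-, -, -, t, -⟩ := hb u v' w' su hv' hw' a cv' cw'
        rw [hou]; exact t _ hzv
      · obtain ⟨-, -, -, -, t⟩ := hb u' v' u hu' hv' su cu' cv' a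
        rw [hou]; exact t _ hzv
    have hcJ : ∀ v ∈ J, col b v = c := by
      intro v hv
      have := hJ hv
      rw [VC, mem_filter] at this
      exact this.2
    obtain ⟨s1, s2⟩ := hS e he
    have main : η * (Fintype.card V : ℝ) ≤ (lk A (φ (ends b e).1) (φ (ends b e).2)).card := by
      rcases hj with hj | hj
      · have hn2 : (ends b e).2 ∉ J := fun h => tree.jind e ⟨hj, h⟩
        exact key _ _ hj hn2 s2 (by rw [← hcJ _ hj]; exact (hne e).symm)
      · have hn2 : (ends b e).1 ∉ J := fun h => tree.jind e ⟨h, hj⟩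
        rw [lk_comm']
        exact key _ _ hj hn2 s1 (by rw [← hcJ _ hj]; exact hne e)
    rw [one_div, inv_mul_eq_div, le_div_iff₀ hη, mul_comm]
    exact main
  refine ⟨F.image r, r, ⟨?_, ?_, ?_, ?_, ?_, heavy, ?_⟩, ⟨xbig, ?_, ?_, hprs⟩⟩
  · -- inj
    intro v hv w hw h
    change S0 (inT N k b) v at hv
    change S0 (inT N k b) w at hw
    by_cases jv : v ∈ J <;> by_cases jw : w ∈ J
    · rw [iz v jv, iz w jw] at h
      exact hz jv jw h
    · obtain ⟨l, hl⟩ := io w jw hw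
      rw [iz v jv, hl] at h
      exact absurd (by rw [← h]; exact mem_image_of_mem z jv) (hmiss ⟨w, l⟩)
    · obtain ⟨l, hl⟩ := io v jv hv
      rw [iz w jw, hl] at h
      exact absurd (by rw [h]; exact mem_image_of_mem z jw) (hmiss ⟨v, l⟩)
    · obtain ⟨l, hl⟩ := io v jv hv
      obtain ⟨l', hl'⟩ := io w jw hw
      rw [hl, hl'] at h
      have := hinj h
      simpa using this
  · -- avoid
    intro v hv hR
    rw [mem_image] at hR
    obtain ⟨e, he, h⟩ := hR
    have h3 := hr e he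
    rw [mem_sdiff] at h3
    rw [hFm] at he
    by_cases jv : v ∈ J
    · apply h3.2
      rw [h, iz v jv]
      exact mem_image_of_mem z jv
    · by_cases ev : isEnd b e v
      · rw [h, lX e he] at h3
        rcases ev with rfl | rfl
        · exact left_not_mem_lk hB _ _ h3.1
        · exact right_not_mem_lk hB _ _ h3.1
      · obtain ⟨q1, q2⟩ := hX0 e he
        rw [h] at h3
        exact hacc e q1 q2 v hv jv ev h3.1
  · -- cR
    have : (F.image r).card ≤ F.card := card_image_le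
    omega
  · -- ne
    intro e he hx
    by_cases hj : hitJ b J e
    · have := heavy e he hj
      rw [← card_pos]
      by_contra hcon
      have h0' : (lk A (φ (ends b e).1) (φ (ends b e).2)).card = 0 := by omega
      rw [h0'] at this
      simp at this
    · rw [e1 e hj, e2 e hj]
      exact ((ep e he hj).2 hx).1
  · -- light
    intro e he hj
    by_cases hx : XT k b J e
    · rw [lX e hx, e1 e hj, e2 e hj]
      exact ((ep e he hj).1 hx).2
    · rw [lA e hx, e1 e hj, e2 e hj]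
      exact ((ep e he hj).2 hx).2.1
  · -- acc
    intro e he hj v hv jv ev
    exact hacc e he hj v hv jv ev
  · -- rep
    intro e he
    have h3 := hr e ((hFm e).2 he)
    rw [mem_sdiff] at h3
    exact ⟨h3.1, mem_image_of_mem r ((hFm e).2 he)⟩
  · -- rinj
    intro e e' he he' h
    exact hri e ((hFm e).2 he) e' ((hFm e').2 he') h

/-- vertex number as an element of `Fin (N + 2)` -/
def fv (N v : ℕ) : Fin (N + 2) := ⟨min v (N + 1), by omega⟩

omit [Fintype V] [DecidableEq V] in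
lemma om_fv {N : ℕ} (z : ℕ → V) (ω : Fin (N + 2) → V) {v : ℕ} (h : v < N + 2) :
    om N z ω v = ω (fv N v) := by
  rw [om, dif_pos h]
  congr 1
  apply Fin.ext
  simp [fv]; omega

lemma fv_ne {N u v : ℕ} (hu : u < N + 2) (hv : v < N + 2) (h : u ≠ v) : fv N u ≠ fv N v := by
  intro h'
  have := congrArg Fin.val h'
  simp only [fv] at this
  omega

open Classical in
/-- Type 1 bad events. -/
lemma bad1 {N k : ℕ} {b : ℕ → ℕ} {c : ℕ} {J : Finset ℕ} (hf : Facts N k b c J)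
    (hT : ∀ e, (ends b e).1 ≤ (e + 1) / 2 + 1 ∧ (ends b e).2 ≤ (e + 1) / 2 + 1)
    (hC : COORD_S) {A B : Finset (Finset V)} {Tr : V → V → V → Prop} {d0 : ℕ} {ρ η : ℝ}
    (hTr : ∀ x x' y, Tr x x' y → (lk A x y).Nonempty ∧ (lk A x' y).Nonempty ∧
      (lk B x x').Nonempty)
    (z : ℕ → V) :
    ((univ : Finset (Fin (N + 2) → V)).filter (fun ω =>
      Blw b (inT N k b) c (Kp A B Tr (J.image z) d0 ρ η) (om N z ω) ∧
      ¬ (Function.Injective ω ∧ (∀ v, ω v ∉ J.image z) ∧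
        Acc N k b J A B (ini N J z ω)))).card * Fintype.card V ≤
      ((N + 2) * (N + 2) * 1 + (N + 2) * J.card + (2 * N + 1) * (N + 2) * d0) *
        Fintype.card V ^ (N + 2) := by
  obtain ⟨hc, hk, hcol, hne, c0, c1, c2, h2, hS, hX, tree, kk, cX, hJ⟩ := hf
  have h0 : S0 (inT N k b) 0 := Or.inl (by norm_num)
  have h1 : S0 (inT N k b) 1 := Or.inl (by norm_num)
  have hZc : (J.image z).card ≤ J.card := card_image_le
  have hSlt : ∀ v, S0 (inT N k b) v → v < N + 2 := by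
    intro v hv
    rcases hv with hv | ⟨i, hi, rfl⟩
    · omega
    · have := tree.inN i hi; omega
  have hElt : ∀ e, E0 (inT N k b) e → e ≤ 2 * N := by
    intro e he
    rcases he with rfl | ⟨i, hi, rfl | rfl⟩
    · omega
    · have := tree.inN i hi; omega
    · have := tree.inN i hi; omega
  -- the three families
  let S1 : Fin (N + 2) × Fin (N + 2) → Finset (Fin (N + 2) → V) := fun p =>
    univ.filter (fun ω => (({ω p.1} : Finset V)).card ≤ 1 ∧ ω p.2 ∈ ({ω p.1} : Finset V))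
  let S2 : Fin (N + 2) → Finset (Fin (N + 2) → V) := fun v =>
    univ.filter (fun ω => (J.image z).card ≤ J.card ∧ ω v ∈ J.image z)
  let Lf : ℕ → V → V → Finset V := fun e x y => if XT k b J e then lk B x y else lk A x y
  let S3 : ℕ × Fin (N + 2) → Finset (Fin (N + 2) → V) := fun p =>
    univ.filter (fun ω => (Lf p.1 (ω (fv N (ends b p.1).1)) (ω (fv N (ends b p.1).2))).card ≤ d0 ∧
      ω p.2 ∈ Lf p.1 (ω (fv N (ends b p.1).1)) (ω (fv N (ends b p.1).2)))
  let I1 : Finset (Fin (N + 2) × Fin (N + 2)) := univ.filter (fun p => p.2 ≠ p.1)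
  let I3 : Finset (ℕ × Fin (N + 2)) := ((range (2 * N + 1)) ×ˢ univ).filter (fun p =>
    p.2 ≠ fv N (ends b p.1).1 ∧ p.2 ≠ fv N (ends b p.1).2)
  have b1 : (I1.biUnion S1).card * Fintype.card V ≤ I1.card * 1 * Fintype.card V ^ (N + 2) := by
    refine ub I1 S1 _ _ _ ?_
    intro p hp
    rw [mem_filter] at hp
    have := (hC (N + 2) V (fun x _ => {x}) 1).1 p.1 p.1 p.2 hp.2 hp.2
    convert this using 3
  have b2 : ((univ : Finset (Fin (N + 2))).biUnion S2).card * Fintype.card V ≤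
      (univ : Finset (Fin (N + 2))).card * J.card * Fintype.card V ^ (N + 2) := by
    refine ub univ S2 _ _ _ ?_
    intro v _
    obtain ⟨a, ha⟩ : ∃ a : Fin (N + 2), v ≠ a := by
      by_cases h : v = 0
      · exact ⟨1, by rw [h]; exact zero_ne_one⟩
      · exact ⟨0, h⟩
    have := (hC (N + 2) V (fun _ _ => J.image z) J.card).1 a a v ha ha
    convert this using 3
  have b3 : (I3.biUnion S3).card * Fintype.card V ≤ I3.card * d0 * Fintype.card V ^ (N + 2) := by
    refine ub I3 S3 _ _ _ ?_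
    intro p hp
    rw [mem_filter] at hp
    have := (hC (N + 2) V (Lf p.1) d0).1 _ _ p.2 hp.2.1 hp.2.2
    convert this using 3
  have i1 : I1.card ≤ (N + 2) * (N + 2) := by
    refine le_trans (card_filter_le _ _) ?_
    simp [Fintype.card_prod]
  have i3 : I3.card ≤ (2 * N + 1) * (N + 2) := by
    refine le_trans (card_filter_le _ _) ?_
    rw [card_product]; simp
  have i2 : (univ : Finset (Fin (N + 2))).card = N + 2 := by simp
  rw [i2] at b2
  have b1' : (I1.biUnion S1).card * Fintype.card V ≤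
      (N + 2) * (N + 2) * 1 * Fintype.card V ^ (N + 2) :=
    le_trans b1 (Nat.mul_le_mul_right _ (Nat.mul_le_mul_right _ i1))
  have b3' : (I3.biUnion S3).card * Fintype.card V ≤
      (2 * N + 1) * (N + 2) * d0 * Fintype.card V ^ (N + 2) :=
    le_trans b3 (Nat.mul_le_mul_right _ (Nat.mul_le_mul_right _ i3))
  have sub : (univ : Finset (Fin (N + 2) → V)).filter (fun ω =>
      Blw b (inT N k b) c (Kp A B Tr (J.image z) d0 ρ η) (om N z ω) ∧
      ¬ (Function.Injective ω ∧ (∀ v, ω v ∉ J.image z) ∧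
        Acc N k b J A B (ini N J z ω))) ⊆
      I1.biUnion S1 ∪ (univ.biUnion S2 ∪ I3.biUnion S3) := by
    intro ω hω
    rw [mem_filter] at hω
    obtain ⟨-, hb, hbad⟩ := hω
    by_contra hcon
    rw [mem_union, mem_union, not_or, not_or] at hcon
    obtain ⟨n1, n2, n3⟩ := hcon
    apply hbad
    refine ⟨?_, ?_, ?_⟩
    · intro u v huv
      by_contra hne'
      apply n1
      rw [mem_biUnion]
      refine ⟨(v, u), ?_, ?_⟩
      · rw [mem_filter]; exact ⟨mem_univ _, hne'⟩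
      · rw [mem_filter]
        refine ⟨mem_univ _, by simp, ?_⟩
        rw [mem_singleton]; exact huv
    · intro v hv
      apply n2
      rw [mem_biUnion]
      refine ⟨v, mem_univ _, ?_⟩
      rw [mem_filter]
      exact ⟨mem_univ _, hZc, hv⟩
    · intro e he hj v hv jv ev hmem
      apply n3
      have he' := hElt e he
      have hv' := hSlt v hv
      have t1 : (ends b e).1 < N + 2 := by have := (hT e).1; omega
      have t2 : (ends b e).2 < N + 2 := by have := (hT e).2; omega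
      have f1 : ini N J z ω (ends b e).1 = ω (fv N (ends b e).1) := by
        rw [ini_eq_om (fun h => hj (Or.inl h)), om_fv z ω t1]
      have f2 : ini N J z ω (ends b e).2 = ω (fv N (ends b e).2) := by
        rw [ini_eq_om (fun h => hj (Or.inr h)), om_fv z ω t2]
      have f3 : ini N J z ω v = ω (fv N v) := by
        rw [ini_eq_om jv, om_fv z ω hv']
      have f4 : Ls A B (XT k b J) b (ini N J z ω) e =
          Lf e (ω (fv N (ends b e).1)) (ω (fv N (ends b e).2)) := by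
        simp only [Ls, Lf, f1, f2]
      rw [mem_biUnion]
      refine ⟨(e, fv N v), ?_, ?_⟩
      · rw [mem_filter, mem_product, mem_range]
        refine ⟨⟨by omega, mem_univ _⟩, ?_, ?_⟩
        · exact fv_ne hv' t1 (fun h => ev (Or.inl h))
        · exact fv_ne hv' t2 (fun h => ev (Or.inr h))
      · rw [mem_filter]
        refine ⟨mem_univ _, ?_, ?_⟩
        · have ep := edge_props (V := V) hc hcol hne h0 h1 h2 hS hX hTr hb c0 c1 c2
            (e := e) he hj
          rw [om_fv z ω t1, om_fv z ω t2] at ep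
          by_cases hx : XT k b J e
          · simp only [Lf, hx, if_true]
            exact (ep.1 hx).2
          · simp only [Lf, hx, if_false]
            exact (ep.2 hx).2.1
        · rw [← f4, ← f3]; exact hmem
  calc _ ≤ (I1.biUnion S1 ∪ (univ.biUnion S2 ∪ I3.biUnion S3)).card * Fintype.card V :=
        Nat.mul_le_mul_right _ (card_le_card sub)
    _ ≤ ((I1.biUnion S1).card + ((univ.biUnion S2).card + (I3.biUnion S3).card)) *
        Fintype.card V := by
        refine Nat.mul_le_mul_right _ (le_trans (card_union_le _ _) ?_)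
        exact Nat.add_le_add_left (card_union_le _ _) _
    _ ≤ _ := by
        rw [add_mul, add_mul, add_mul, add_mul]
        linarith

open Classical in
/-- Type 2 bad events. -/
lemma bad2 {N k : ℕ} {b : ℕ → ℕ} {c : ℕ} {J : Finset ℕ} (hf : Facts N k b c J)
    (hT : ∀ e, (ends b e).1 ≤ (e + 1) / 2 + 1 ∧ (ends b e).2 ≤ (e + 1) / 2 + 1)
    (hT' : ∀ e, (ends b e).1 ≠ (ends b e).2)
    (hC : COORD_S) {A B : Finset (Finset V)} {Tr : V → V → V → Prop} {d0 : ℕ} {ρ η : ℝ}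
    (hTr : ∀ x x' y, Tr x x' y → (lk A x y).Nonempty ∧ (lk A x' y).Nonempty ∧
      (lk B x x').Nonempty)
    (z : ℕ → V) (κ : ℝ) (hκ : 0 ≤ κ)
    (hP : J ≠ VC k b c → ∀ Z' : Finset V, Z'.card = J.card + 1 →
      (cnt2 (fun x y => Pop Tr (ρ * (Fintype.card V : ℝ)) x y ∧ Z' ⊆ lk A x y) : ℝ) ≤
        κ * (Fintype.card V : ℝ) ^ 2) :
    (((univ : Finset (Fin (N + 2) → V)).filter (fun ω =>
      Blw b (inT N k b) c (Kp A B Tr (J.image z) d0 ρ η) (om N z ω) ∧
      ¬ Prs N k b c J A B (ini N J z ω))).card : ℝ) ≤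
      (2 * N + 1) ^ 2 * (2 ^ d0 * κ * (Fintype.card V : ℝ) ^ (N + 2)) := by
  obtain ⟨hc, hk, hcol, hne, c0, c1, c2, h2, hS, hX, tree, kk, cX, hJ⟩ := hf
  have h0 : S0 (inT N k b) 0 := Or.inl (by norm_num)
  have h1 : S0 (inT N k b) 1 := Or.inl (by norm_num)
  have hElt : ∀ e, E0 (inT N k b) e → e ≤ 2 * N := by
    intro e he
    rcases he with rfl | ⟨i, hi, rfl | rfl⟩
    · omega
    · have := tree.inN i hi; omega
    · have := tree.inN i hi; omega
  by_cases hJV : J = VC k b c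
  · have : (univ : Finset (Fin (N + 2) → V)).filter (fun ω =>
      Blw b (inT N k b) c (Kp A B Tr (J.image z) d0 ρ η) (om N z ω) ∧
      ¬ Prs N k b c J A B (ini N J z ω)) = ∅ := by
      rw [filter_eq_empty_iff]
      intro ω _ h
      exact h.2 (fun h' => absurd hJV h')
    rw [this]
    simp only [card_empty, Nat.cast_zero]
    positivity
  have hP' := hP hJV
  let Lf : ℕ → V → V → Finset V := fun e x y => if XT k b J e then lk B x y else lk A x y
  let S : ℕ × ℕ → Finset (Fin (N + 2) → V) := fun p =>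
    univ.filter (fun ω => (Lf p.2 (ω (fv N (ends b p.2).1)) (ω (fv N (ends b p.2).2))).card ≤ d0 ∧
      Pop Tr (ρ * (Fintype.card V : ℝ)) (ω (fv N (ends b p.1).1)) (ω (fv N (ends b p.1).2)) ∧
      J.card + 1 ≤ (lk A (ω (fv N (ends b p.1).1)) (ω (fv N (ends b p.1).2)) ∩
        Lf p.2 (ω (fv N (ends b p.2).1)) (ω (fv N (ends b p.2).2))).card)
  let I : Finset (ℕ × ℕ) := ((range (2 * N + 1)) ×ˢ (range (2 * N + 1))).filter (fun p =>
    ¬ isEnd b p.1 (ends b p.2).1 ∧ ¬ isEnd b p.1 (ends b p.2).2)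
  have tl1 : ∀ e ≤ 2 * N, (ends b e).1 < N + 2 := fun e he => by have := (hT e).1; omega
  have tl2 : ∀ e ≤ 2 * N, (ends b e).2 < N + 2 := fun e he => by have := (hT e).2; omega
  have hS' : ∀ p ∈ I, ((S p).card : ℝ) ≤ 2 ^ d0 * κ * (Fintype.card V : ℝ) ^ (N + 2) := by
    intro p hp
    rw [mem_filter, mem_product, mem_range, mem_range] at hp
    obtain ⟨⟨l1, l2⟩, l3, l4⟩ := hp
    have l1' : p.1 ≤ 2 * N := by omega
    have l2' : p.2 ≤ 2 * N := by omega
    have := (hC (N + 2) V (Lf p.2) d0).2 (fv N (ends b p.1).1) (fv N (ends b p.1).2)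
      (fv N (ends b p.2).1) (fv N (ends b p.2).2)
      (fv_ne (tl1 _ l1') (tl2 _ l1') (hT' _))
      (fv_ne (tl1 _ l1') (tl1 _ l2') (fun h => l3 (Or.inl h.symm)))
      (fv_ne (tl1 _ l1') (tl2 _ l2') (fun h => l4 (Or.inl h.symm)))
      (fv_ne (tl2 _ l1') (tl1 _ l2') (fun h => l3 (Or.inr h.symm)))
      (fv_ne (tl2 _ l1') (tl2 _ l2') (fun h => l4 (Or.inr h.symm)))
      (fun x y => lk A x y) (Pop Tr (ρ * (Fintype.card V : ℝ))) (J.card + 1) κ hκ hP'
    convert this using 3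
  have sub : (univ : Finset (Fin (N + 2) → V)).filter (fun ω =>
      Blw b (inT N k b) c (Kp A B Tr (J.image z) d0 ρ η) (om N z ω) ∧
      ¬ Prs N k b c J A B (ini N J z ω)) ⊆ I.biUnion S := by
    intro ω hω
    rw [mem_filter] at hω
    obtain ⟨-, hb, hbad⟩ := hω
    by_contra hcon
    apply hbad
    intro _ e e' he he' hj hj' hx d1 d2
    by_contra hlt
    apply hcon
    have hel := hElt e he
    have hel' := hElt e' he'
    have gen : ∀ f, E0 (inT N k b) f → ¬ hitJ b J f → Ls A B (XT k b J) b (ini N J z ω) f =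
          Lf f (ω (fv N (ends b f).1)) (ω (fv N (ends b f).2)) := by
      intro f hf hjf
      have hf' := hElt f hf
      have f1 : ini N J z ω (ends b f).1 = ω (fv N (ends b f).1) := by
        rw [ini_eq_om (fun h => hjf (Or.inl h)), om_fv z ω (tl1 f hf')]
      have f2 : ini N J z ω (ends b f).2 = ω (fv N (ends b f).2) := by
        rw [ini_eq_om (fun h => hjf (Or.inr h)), om_fv z ω (tl2 f hf')]
      simp only [Ls, Lf, f1, f2]
    have ep := edge_props (V := V) hc hcol hne h0 h1 h2 hS hX hTr hb c0 c1 c2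
      (e := e) he hj
    have ep' := edge_props (V := V) hc hcol hne h0 h1 h2 hS hX hTr hb c0 c1 c2
      (e := e') he' hj'
    rw [om_fv z ω (tl1 e hel), om_fv z ω (tl2 e hel)] at ep
    rw [om_fv z ω (tl1 e' hel'), om_fv z ω (tl2 e' hel')] at ep'
    rw [mem_biUnion]
    refine ⟨(e, e'), ?_, ?_⟩
    · rw [mem_filter, mem_product, mem_range, mem_range]
      exact ⟨⟨by omega, by omega⟩, d1, d2⟩
    · rw [mem_filter]
      refine ⟨mem_univ _, ?_, (ep.2 hx).2.2, ?_⟩
      · by_cases hx' : XT k b J e'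
        · simp only [Lf, hx', if_true]
          exact (ep'.1 hx').2
        · simp only [Lf, hx', if_false]
          exact (ep'.2 hx').2.1
      · rw [gen e he hj, gen e' he' hj'] at hlt
        have : Lf e (ω (fv N (ends b e).1)) (ω (fv N (ends b e).2)) =
            lk A (ω (fv N (ends b e).1)) (ω (fv N (ends b e).2)) := by
          simp only [Lf, hx, if_false]
        rw [this, not_le] at hlt
        exact hlt
  have hI : I.card ≤ (2 * N + 1) ^ 2 := by
    refine le_trans (card_filter_le _ _) ?_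
    rw [card_product, card_range, sq]
  calc (((univ : Finset (Fin (N + 2) → V)).filter (fun ω =>
      Blw b (inT N k b) c (Kp A B Tr (J.image z) d0 ρ η) (om N z ω) ∧
      ¬ Prs N k b c J A B (ini N J z ω))).card : ℝ) ≤ ((I.biUnion S).card : ℝ) := by
        exact_mod_cast card_le_card sub
    _ ≤ ∑ p ∈ I, ((S p).card : ℝ) := by exact_mod_cast card_biUnion_le
    _ ≤ ∑ p ∈ I, (2 ^ d0 * κ * (Fintype.card V : ℝ) ^ (N + 2)) := sum_le_sum hS'
    _ = I.card * (2 ^ d0 * κ * (Fintype.card V : ℝ) ^ (N + 2)) := by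
        rw [sum_const, nsmul_eq_mul]
    _ ≤ _ := by
        refine mul_le_mul_of_nonneg_right ?_ (by positivity)
        exact_mod_cast hI

open Classical in
omit [DecidableEq V] in
lemma cnt3_mono {P Q : V → V → V → Prop} (h : ∀ x y w, P x y w → Q x y w) : cnt3 P ≤ cnt3 Q := by
  unfold cnt3
  refine card_le_card ?_
  intro p hp
  rw [mem_filter] at hp ⊢
  exact ⟨hp.1, h _ _ _ hp.2⟩

end Main

open Classical in
/-- OMEGA -/
theorem omega (hT : TREE_S) (hZ : TZERO_S) (hB : BLOW_S) (hC : COORD_S) (hCl : CLEAN_S) :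
    OMEGA_S := by
  intro N k b c J hN hb1 hk1 hkN hc _ hJ δ d0 hδ
  obtain ⟨t1, t2, t3, t4, t5, t6⟩ := hT b
  obtain ⟨z1, z2, z3, z4, z5, z6, z7, z8, z9⟩ := hZ N k b c J hN hb1 hk1 hkN hc hJ
  have cc0 : col b 0 = 0 := by rw [col]
  have cc1 : col b 1 = 1 := by rw [col]
  have cc2 : col b 2 = 2 := by
    have h := t5 0
    have hb0 : bs b 0 = 0 := by simp [bs]
    have ha : pA b 0 = 0 := by rw [pA, hb0, ends_zero]
    have hb : pB b 0 = 1 := by rw [pB, hb0, ends_zero]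
    rw [ha, hb, cc0, cc1] at h
    have h' : col b (0 + 2) = col b 2 := rfl
    omega
  have hf : Facts N k b c J := by
    refine ⟨hc, hkN, t3, t4, cc0, cc1, cc2, ?_, ?_, z9, z1, z2, ?_, hJ⟩
    · refine Or.inr ⟨0, ⟨by omega, Or.inl (by omega)⟩, rfl⟩
    · exact S0_ends (fun i hi => z1.down i (z1.inN i hi) hi)
    · intro F hF
      refine le_trans (Nat.add_le_add_right (card_le_card ?_) _) z7
      intro e he
      rw [mem_filter, mem_range]
      exact ⟨by have := (hF e he).1; omega, (hF e he).2⟩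
  obtain ⟨cB, hcB, hBl⟩ := hB (N + 2) (δ / 2) (by positivity)
  have ends' : ∀ e, (ends b e).1 ≤ (e + 1) / 2 + 1 ∧ (ends b e).2 ≤ (e + 1) / 2 + 1 :=
    fun e => ⟨(t1 e).1, (t1 e).2.1⟩
  have endsne : ∀ e, (ends b e).1 ≠ (ends b e).2 := fun e => (t1 e).2.2
  set ρ : ℝ := δ / 8 with hρ
  set η : ℝ := δ / (8 * (J.card + 1)) with hη
  have hρ0 : 0 < ρ := by positivity
  have hη0 : 0 < η := by positivity
  set δ' : ℝ := ρ * cB / (16 * (2 * N + 1) ^ 2 * 2 ^ d0) with hδ'
  have hδ'0 : 0 < δ' := by positivity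
  set K : ℕ := (N + 2) * (N + 2) * 1 + (N + 2) * J.card + (2 * N + 1) * (N + 2) * d0 with hK
  refine ⟨cB / 2, 1 / η, δ', ⌈4 * (K : ℝ) / cB⌉₊ + 1, by positivity, hδ'0, ?_⟩
  intro V _ _ A B Tr z hn hA hBu hcoreB hTr hz hcnt hpop
  have hn1 : 0 < Fintype.card V := by omega
  have hnr : (0 : ℝ) < (Fintype.card V : ℝ) := by exact_mod_cast hn1
  have hKn : (K : ℝ) ≤ cB / 4 * (Fintype.card V : ℝ) := by
    have h1 : 4 * (K : ℝ) / cB ≤ (Fintype.card V : ℝ) := by
      refine le_trans (Nat.le_ceil _) ?_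
      exact_mod_cast (by omega : ⌈4 * (K : ℝ) / cB⌉₊ ≤ Fintype.card V)
    rw [div_le_iff₀ hcB] at h1
    linarith
  set Z := J.image z with hZdef
  have hZc : (Z.card : ℝ) ≤ J.card := by exact_mod_cast card_image_le
  -- cleaning
  have hclean := hCl V A Tr (fun x x' y => Tr x x' y ∧ (lk A x y).card ≤ d0 ∧
    (lk A x' y).card ≤ d0 ∧ (lk B x x').card ≤ d0 ∧ Z ⊆ lk A x y) Z δ ρ η hρ0.le hη0.le
    (fun x x' y h => ⟨h.1, h.2.2.2.2⟩) (by
      refine le_trans hcnt ?_
      have hm : cnt3 (fun x x' y => Tr x x' y ∧ (lk A x y).card ≤ d0 ∧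
          (lk A x' y).card ≤ d0 ∧ (lk B x x').card ≤ d0 ∧ ∀ v ∈ J, z v ∈ lk A x y) ≤
          cnt3 (fun x x' y => Tr x x' y ∧ (lk A x y).card ≤ d0 ∧
          (lk A x' y).card ≤ d0 ∧ (lk B x x').card ≤ d0 ∧ Z ⊆ lk A x y) :=
        cnt3_mono (fun x x' y h => ⟨h.1, h.2.1, h.2.2.1, h.2.2.2.1, by
          rw [hZdef, image_subset_iff]
          exact h.2.2.2.2⟩)
      exact_mod_cast hm)
  have hkept : δ / 2 * (Fintype.card V : ℝ) ^ 3 ≤ cnt3 (Kp A B Tr Z d0 ρ η) := by
    refine le_trans ?_ (le_trans hclean ?_)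
    · refine mul_le_mul_of_nonneg_right ?_ (by positivity)
      have h1 : 2 * (Z.card : ℝ) * η ≤ δ / 4 := by
        calc 2 * (Z.card : ℝ) * η ≤ 2 * (J.card + 1 : ℝ) * η := by
              refine mul_le_mul_of_nonneg_right ?_ hη0.le
              linarith
          _ = δ / 4 := by rw [hη]; field_simp; ring
      have h2 : 2 * ρ = δ / 4 := by rw [hρ]; ring
      linarith
    · exact_mod_cast cnt3_mono (fun x x' y h => h)
  -- blow up
  let cl : Fin (N + 2) → ℕ := fun v => if S0 (inT N k b) v then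
    (if col b v = 1 - c then 0 else if col b v = c then 1 else 2) else 3
  have hblow := hBl V cl (Kp A B Tr Z d0 ρ η) hkept
  have hSlt : ∀ v, S0 (inT N k b) v → v < N + 2 := by
    intro v hv
    rcases hv with hv | ⟨i, hi, rfl⟩
    · omega
    · have := z1.inN i hi; omega
  set BL := (univ : Finset (Fin (N + 2) → V)).filter (fun ω =>
    Blw b (inT N k b) c (Kp A B Tr Z d0 ρ η) (om N z ω)) with hBLdef
  have hBL : cB * (Fintype.card V : ℝ) ^ (N + 2) ≤ BL.card := by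
    refine le_trans hblow ?_
    have : ((univ : Finset (Fin (N + 2) → V)).filter (fun ω =>
      ∀ i j l, cl i = 0 → cl j = 1 → cl l = 2 → Kp A B Tr Z d0 ρ η (ω i) (ω j) (ω l))) ⊆ BL := by
      intro ω hω
      rw [mem_filter] at hω
      rw [hBLdef, mem_filter]
      refine ⟨mem_univ _, ?_⟩
      intro u v w su sv sw cu cv cw
      have lu := hSlt u su
      have lv := hSlt v sv
      have lw := hSlt w sw
      have eu : cl ⟨u, lu⟩ = 0 := by
        simp only [cl]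
        rw [if_pos su, if_pos cu]
      have ev : cl ⟨v, lv⟩ = 1 := by
        simp only [cl]
        rw [if_pos sv, if_neg (by omega), if_pos cv]
      have ew : cl ⟨w, lw⟩ = 2 := by
        simp only [cl]
        rw [if_pos sw, if_neg (by omega), if_neg (by omega)]
      have := hω.2 ⟨u, lu⟩ ⟨v, lv⟩ ⟨w, lw⟩ eu ev ew
      rw [om, dif_pos lu, om, dif_pos lv, om, dif_pos lw]
      exact this
    exact_mod_cast card_le_card this
  set Ω := (univ : Finset (Fin (N + 2) → V)).filter (fun ω =>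
    Blw b (inT N k b) c (Kp A B Tr Z d0 ρ η) (om N z ω) ∧
    (Function.Injective ω ∧ (∀ v, ω v ∉ Z) ∧ Acc N k b J A B (ini N J z ω)) ∧
    Prs N k b c J A B (ini N J z ω)) with hΩ
  have hstart : ∀ ω, ∃ (R : Finset V) (r : ℕ → V), ω ∈ Ω →
      Start N b (inT N k b) J (XT k b J) A B (1 / η) d0 (ini N J z ω) R ∧
      Pairs N k b c J A B (ini N J z ω) R r := by
    intro ω
    by_cases h : ω ∈ Ω
    · have h' := h
      rw [hΩ, mem_filter] at h'
      obtain ⟨-, h1, ⟨h2, h3, h4⟩, h5⟩ := h'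
      obtain ⟨R, r, hR⟩ := start_of hf hη0 hn1 hBu hcoreB hTr z hz ω h2 h3 h1 h4 h5
      exact ⟨R, r, fun _ => hR⟩
    · exact ⟨∅, z, fun h' => absurd h' h⟩
  choose R r hRr using hstart
  refine ⟨Ω, R, r, ?_, hRr⟩
  -- counting
  have hb1' := bad1 hf ends' hC (A := A) (B := B) (Tr := Tr) (d0 := d0) (ρ := ρ) (η := η) hTr z
  set κ : ℝ := 4 * δ' / ρ with hκ
  have hκ0 : 0 ≤ κ := by positivity
  have hb2' := bad2 hf ends' endsne hC (A := A) (B := B) (Tr := Tr) (d0 := d0) (ρ := ρ)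
    (η := η) hTr z κ hκ0 (fun hJV Z' hZ' =>
      pop_count A Tr ρ δ' hρ0 hn1 Z' (hpop hJV Z' hZ').1 (hpop hJV Z' hZ').2)
  set S1 := (univ : Finset (Fin (N + 2) → V)).filter (fun ω =>
      Blw b (inT N k b) c (Kp A B Tr (J.image z) d0 ρ η) (om N z ω) ∧
      ¬ (Function.Injective ω ∧ (∀ v, ω v ∉ J.image z) ∧
        Acc N k b J A B (ini N J z ω))) with hS1
  set S2 := (univ : Finset (Fin (N + 2) → V)).filter (fun ω =>
      Blw b (inT N k b) c (Kp A B Tr (J.image z) d0 ρ η) (om N z ω) ∧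
      ¬ Prs N k b c J A B (ini N J z ω)) with hS2
  have hsub : BL ⊆ Ω ∪ (S1 ∪ S2) := by
    intro ω hω
    rw [hBLdef, mem_filter] at hω
    by_cases g1 : (Function.Injective ω ∧ (∀ v, ω v ∉ J.image z) ∧
        Acc N k b J A B (ini N J z ω))
    · by_cases g2 : Prs N k b c J A B (ini N J z ω)
      · exact mem_union_left _ (by rw [hΩ, mem_filter]; exact ⟨mem_univ _, hω.2, g1, g2⟩)
      · exact mem_union_right _ (mem_union_right _
          (by rw [hS2, mem_filter]; exact ⟨mem_univ _, hω.2, g2⟩))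
    · exact mem_union_right _ (mem_union_left _
          (by rw [hS1, mem_filter]; exact ⟨mem_univ _, hω.2, g1⟩))
  have hcard : (BL.card : ℝ) ≤ Ω.card + (S1.card + S2.card) := by
    have h1 := card_le_card hsub
    have h2 := card_union_le Ω (S1 ∪ S2)
    have h3 := card_union_le S1 S2
    exact_mod_cast (by omega : BL.card ≤ Ω.card + (S1.card + S2.card))
  have g1 : (S1.card : ℝ) ≤ cB / 4 * (Fintype.card V : ℝ) ^ (N + 2) := by
    have h1 : (S1.card : ℝ) * (Fintype.card V : ℝ) ≤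
        (K : ℝ) * (Fintype.card V : ℝ) ^ (N + 2) := by exact_mod_cast hb1'
    have h2 : (S1.card : ℝ) * (Fintype.card V : ℝ) ≤
        (cB / 4 * (Fintype.card V : ℝ) ^ (N + 2)) * (Fintype.card V : ℝ) := by
      refine le_trans h1 ?_
      have : (cB / 4 * (Fintype.card V : ℝ) ^ (N + 2)) * (Fintype.card V : ℝ) =
        (cB / 4 * (Fintype.card V : ℝ)) * (Fintype.card V : ℝ) ^ (N + 2) := by ring
      rw [this]
      exact mul_le_mul_of_nonneg_right hKn (by positivity)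
    exact le_of_mul_le_mul_right h2 hnr
  have g2 : (S2.card : ℝ) ≤ cB / 4 * (Fintype.card V : ℝ) ^ (N + 2) := by
    refine le_trans hb2' (le_of_eq ?_)
    rw [hκ, hδ']
    field_simp
    ring
  have : cB / 2 * (Fintype.card V : ℝ) ^ (N + 2) = cB * (Fintype.card V : ℝ) ^ (N + 2) -
    cB / 4 * (Fintype.card V : ℝ) ^ (N + 2) - cB / 4 * (Fintype.card V : ℝ) ^ (N + 2) := by ring
  rw [this]
  linarith

end MP_182bbb_co.TT.H17
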